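import Pool.Agent.Lib.MP_eee7a8_ag.TB.IfaceB

/-!
# TAGBR Part B, modules T1P and B5G (helper19)
-/

set_option autoImplicit false

open Matrix

namespace Pool.Agent.Lib.MP_eee7a8_ag.TB.PB.H19

/-- the displacement of an edge of a bounded family of arcs -/
theorem disp_le {G : Subgroup SLZ} {ι : Type} {T : Fam ι} {h : SLZ} {M : ℝ}
    (hM : Bdd h (strandsQ G T) M) {a b : Cusp} (hE : T.E G a b) (hne : a ≠ b)
    (ha : side h a < 0) (hb : 0 < side h b) : |pos h b - pos h a| ≤ M := by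
  have hres : (sideF h).res (arcF a b) < 0 := by
    rw [res_sideF_arcF]
    exact mul_neg_of_pos_of_neg (pow_pos_of_ne (dt_ne_zero hne)) (mul_neg_of_neg_of_pos ha hb)
  obtain ⟨σ, p, q, hcut, hpq⟩ := hM (arcF a b) ⟨a, b, hE, rfl⟩ hres
  have ea : (arcF a b).ev a = 0 := by rw [ev_arcF, dt_self]; ring
  have eb : (arcF a b).ev b = 0 := by rw [ev_arcF, dt_self]; ring
  obtain ⟨_, h1, h2⟩ := hcut
  have h3 := h1 a ha
  have h4 := h2 b hb
  rw [ea, mul_zero] at h3
  rw [eb, mul_zero] at h4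
  have e1 : pos h a = p :=
    le_antisymm (not_lt.1 fun hlt => lt_irrefl _ (h3.1.2 hlt))
      (not_lt.1 fun hlt => lt_irrefl _ (h3.2.2 hlt))
  have e2 : pos h b = q :=
    le_antisymm (not_lt.1 fun hlt => lt_irrefl _ (h4.1.2 hlt))
      (not_lt.1 fun hlt => lt_irrefl _ (h4.2.2 hlt))
  rw [e1, e2]
  exact hpq
where
  pow_pos_of_ne {x : ℤ} (hx : x ≠ 0) : 0 < x ^ 2 := by positivity

/-- module T1P -/
theorem t1p (h1 : T1PP_S) (h2 : MTD_S) (h3 : DTRI_S) (h4 : DAX_S) (h5 : DINV_S) (h6 : BDD_S)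
    (h7 : ARCFAM_S) : T1P_S := by
  intro G κ ι _ _ Λ T S r m hT hm hS hr hok ε hε
  have hfam : SimpleFam G (strandsQ G T) := h7 G ι inferInstance T hT.toNonCross
  have hM := fun j => h6 G S (Λ.h j) hS (Λ.loop j).mem (Λ.tr j)
  have hMT := fun j => h6 G (strandsQ G T) (Λ.h j) hfam (Λ.loop j).mem (Λ.tr j)
  choose M hM using hM
  choose MT hMT using hMT
  have := Fintype.ofFinite κ
  -- the bound
  obtain ⟨n₀, hn₀⟩ : ∃ n₀ : ℕ, ∀ j, M j + MT j + 5 < n₀ := by
    have h8 : ∀ j, ∃ k : ℕ, M j + MT j + 5 < k := fun j => exists_nat_gt _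
    choose k hk using h8
    refine ⟨∑ j, k j, fun j => (hk j).trans_le ?_⟩
    exact_mod_cast Finset.single_le_sum (fun i _ => Nat.zero_le (k i)) (Finset.mem_univ j)
  refine ⟨n₀, fun n hn j => ?_⟩
  set nn : κ → ℤ := fun i => ε i * n with hnn
  set h := Λ.h j with hh
  have hT' := (h3 G κ ι inferInstance Λ nn T hT).1
  have hsame := (h3 G κ ι inferInstance Λ nn T hT).2
  have hm' := h2 G κ ι inferInstance inferInstance Λ nn j T (m j) hT (hm j)
  obtain ⟨g, hg, _, hN, hP⟩ := h4 G κ inferInstance Λ nn j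
  -- edges of the image
  have hedge : ∀ a' b', (mapF T (Λ.D nn)).E G a' b' → side h a' < 0 → 0 < side h b' →
      |pos h b' - pos h a' - nn j| ≤ MT j + 2 := by
    intro a' b' hE ha' hb'
    have hinv : ∀ v, Λ.D nn (Λ.D (-nn) v) = v := by
      intro v
      have := h5 G κ inferInstance Λ (-nn) v
      rwa [neg_neg] at this
    set a := Λ.D (-nn) (g⁻¹ • a') with ha
    set b := Λ.D (-nn) (g⁻¹ • b') with hb
    have ea : g • Λ.D nn a = a' := by rw [ha, hinv, smul_inv_smul]
    have eb : g • Λ.D nn b = b' := by rw [hb, hinv, smul_inv_smul]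
    have hTE : T.E G a b := by
      obtain ⟨i, g1, hg1, h8⟩ := hE
      refine ⟨i, (hsame _ _ _ _).1 ⟨g⁻¹ * g1, G.mul_mem (G.inv_mem hg) hg1, ?_⟩⟩
      have ea' : Λ.D nn a = g⁻¹ • a' := by rw [← ea, inv_smul_smul]
      have eb' : Λ.D nn b = g⁻¹ • b' := by rw [← eb, inv_smul_smul]
      rw [ea', eb', mul_smul, mul_smul]
      change g1 • Λ.D nn (T.s i) = a' ∧ g1 • Λ.D nn (T.t i) = b' ∨
        g1 • Λ.D nn (T.s i) = b' ∧ g1 • Λ.D nn (T.t i) = a' at h8
      rcases h8 with ⟨e1, e2⟩ | ⟨e1, e2⟩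
      · left; rw [e1, e2]; exact ⟨rfl, rfl⟩
      · right; rw [e1, e2]; exact ⟨rfl, rfl⟩
    have hsa : side h a < 0 := by
      rcases lt_or_gt_of_ne (side_ne_zero ((Λ.tr j).trans_le (le_abs_self _)) a) with h9 | h9
      · exact h9
      · have := (hP a h9).1
        rw [ea] at this
        exact absurd ha' (not_lt.2 this.le)
    have hsb : 0 < side h b := by
      rcases lt_or_gt_of_ne (side_ne_zero ((Λ.tr j).trans_le (le_abs_self _)) b) with h9 | h9
      · have := (hN b h9).1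
        rw [eb] at this
        exact absurd hb' (not_lt.2 this.le)
      · exact h9
    have hne : a ≠ b := by
      intro e
      rw [e] at hsa
      omega
    have h10 := disp_le (hMT j) hTE hne hsa hsb
    have h11 := (hN a hsa).2
    have h12 := (hP b hsb).2
    rw [ea] at h11
    rw [eb] at h12
    rw [abs_le] at *
    constructor <;> linarith [h10.1, h10.2, h11.1, h11.2, h12.1, h12.2]
  have hmain := h1 G ι inferInstance (mapF T (Λ.D nn)) S r h (M j) (m j) hT' (Λ.loop j).mem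
    (Λ.tr j) hS.toSFam hr (hM j) (hok j) hm'
  have hbig : M j + MT j + 5 < n := (hn₀ j).trans_le (by exact_mod_cast hn)
  rcases hε j with he | he
  · have h13 := hmain.1 (by
      intro a b hE ha hb
      have h14 := hedge a b hE ha hb
      have h15 : (nn j : ℝ) = n := by rw [hnn]; simp [he]
      rw [h15, abs_le] at h14
      linarith [h14.1])
    rw [he, one_mul]
    exact h13
  · have h13 := hmain.2 (by
      intro a b hE ha hb
      have h14 := hedge a b hE ha hb
      have h15 : (nn j : ℝ) = -n := by rw [hnn]; simp [he]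
      rw [h15, abs_le] at h14
      linarith [h14.2])
    rw [he, neg_one_mul, neg_neg]
    exact h13

/-- module B5G -/
theorem b5g (h1 : T1P_S) : B5G_S := by
  intro G κ ι _ _ Λ T S r m hT hm hS hr hok hcr c hc
  classical
  set ε : κ → ℤ := fun j => if 0 ≤ c j then 1 else -1 with hε
  have hε' : ∀ j, ε j = 1 ∨ ε j = -1 := by
    intro j
    rw [hε]
    by_cases h : 0 ≤ c j
    · left; simp [h]
    · right; simp [h]
  obtain ⟨n₀, hn₀⟩ := h1 G κ ι inferInstance inferInstance Λ T S r m hT hm hS hr hok ε hε'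
  have h2 := hn₀ n₀ le_rfl
  have h3 := hc (fun i => ε i * n₀)
  have h4 : pair (mapF T (Λ.D (fun i => ε i * n₀))) (∑ j, c j • m j) (XX S r) =
      ∑ j, c j * pair (mapF T (Λ.D (fun i => ε i * n₀))) (m j) (XX S r) := by
    unfold pair
    simp only [Finset.sum_apply, Pi.smul_apply, smul_eq_mul, Finset.sum_mul, Finset.mul_sum]
    rw [Finset.sum_comm]
    refine Finset.sum_congr rfl fun j _ => Finset.sum_congr rfl fun i _ => ?_
    ring
  rw [h4] at h3
  have h5 : ∀ j, |c j| ≤ -(c j * pair (mapF T (Λ.D (fun i => ε i * n₀))) (m j) (XX S r)) := by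
    intro j
    have h6 := (h2 j).2 (hcr j)
    generalize pair (mapF T (Λ.D (fun i => ε i * n₀))) (m j) (XX S r) = P at *
    by_cases h : 0 ≤ c j
    · have h7 : ε j = 1 := by rw [hε]; simp [h]
      rw [h7] at h6
      rw [abs_of_nonneg h]
      nlinarith
    · have h7 : ε j = -1 := by rw [hε]; simp [h]
      rw [h7] at h6
      rw [abs_of_neg (not_le.1 h)]
      nlinarith
  have h8 : ∑ j, |c j| ≤ 0 := by
    calc ∑ j, |c j| ≤ ∑ j, -(c j * pair (mapF T (Λ.D (fun i => ε i * n₀))) (m j) (XX S r)) :=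
          Finset.sum_le_sum fun j _ => h5 j
      _ = 0 := by rw [Finset.sum_neg_distrib, h3, neg_zero]
  have h9 : ∀ j ∈ Finset.univ, |c j| = 0 :=
    (Finset.sum_eq_zero_iff_of_nonneg (fun j _ => abs_nonneg (c j))).1
      (le_antisymm h8 (Finset.sum_nonneg fun j _ => abs_nonneg _))
  funext j
  exact abs_eq_zero.1 (h9 j (Finset.mem_univ j))

end Pool.Agent.Lib.MP_eee7a8_ag.TB.PB.H19
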