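import Pool.Agent.Lib.MP_eee7a8_ag.TB.IfaceB

/-!
# TAGBR Part B, module T1PP (helper19)
-/

set_option autoImplicit false

open Matrix

namespace Pool.Agent.Lib.MP_eee7a8_ag.TB.PB.H19

theorem E_symm {G : Subgroup SLZ} {ι : Type} {T : Fam ι} {a b : Cusp} (h : T.E G a b) :
    T.E G b a := by
  obtain ⟨i, g, hg, h1 | h1⟩ := h
  · exact ⟨i, g, hg, Or.inr h1⟩
  · exact ⟨i, g, hg, Or.inl h1⟩

theorem pair_sub {ι : Type} [Fintype ι] (T : Fam ι) (m m' : ι → ℤ) (X : Cusp → Cusp → ℤ) :
    pair T (m - m') X = pair T m X - pair T m' X := by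
  unfold pair
  rw [← Finset.sum_sub_distrib]
  refine Finset.sum_congr rfl fun i _ => ?_
  rw [Pi.sub_apply, sub_mul]

theorem pair_add {ι : Type} [Fintype ι] (T : Fam ι) (m m' : ι → ℤ) (X : Cusp → Cusp → ℤ) :
    pair T (m + m') X = pair T m X + pair T m' X := by
  unfold pair
  rw [← Finset.sum_add_distrib]
  refine Finset.sum_congr rfl fun i _ => ?_
  rw [Pi.add_apply, add_mul]

/-- module T1PP -/
theorem t1pp (h1 : FPFAR_S) (h2 : GROW_S) (h3 : STRIP_S) (h4 : DEL_S) (h5 : XINV_S)
    (h6 : POS_S) : T1PP_S := by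
  intro G ι _ T S r h M m hT hh htr hS hr hb hok hm
  obtain ⟨s⟩ := h3 G ι inferInstance T h hT hh htr
  obtain ⟨α, β, hab, hm'⟩ := hm
  obtain ⟨hsym, hinv⟩ := h5 G S r hS hr
  have hdel := (h4 G ι inferInstance T hT).2.2.2 (XX S r) hsym hinv
  have hpos1 := (h6 h htr).1
  have hmono : ∀ i, pos h (s.u i) ≤ pos h (s.u (i + 1)) := by
    intro i
    rcases s.step i with ⟨e, _⟩ | ⟨_, e, _⟩
    · rw [e]
    · exact e.le
  have hmono' : ∀ (i : ℤ) (n : ℕ), pos h (s.u i) ≤ pos h (s.u (i + n)) := by
    intro i n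
    induction n with
    | zero => simp
    | succ n ih =>
      refine ih.trans ?_
      have := hmono (i + n)
      rw [show i + ((n + 1 : ℕ) : ℤ) = i + n + 1 by push_cast; ring]
      exact this
  have hE : ∀ i, α (s.v i) + β (s.u i) = T.del G (s.v i) (s.u i) := fun i =>
    hab _ _ (E_symm (s.edge i)) (s.right i) (s.left i)
  have hpE : ∀ i, pair T (α (s.v i)) (XX S r) + pair T (β (s.u i)) (XX S r) =
      XX S r (s.u i) (s.v i) := by
    intro i
    rw [← pair_add, hE, hdel _ _ (E_symm (s.edge i)), hsym]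
  have hmval : m = β (s.u s.r) - β (s.u 0) := by
    have e1 := (hm' _ _ (E_symm (s.edge 0)) (s.right 0) (s.left 0)).1
    have e2 := (s.per 0).1
    rw [zero_add] at e2
    rw [e2]
    exact e1.symm
  -- telescoping
  have key : ∀ vs : Cusp, (∀ i : ℕ, i < s.r → s.v (i + 1) = s.v i →
      XX S r (s.u (i + 1)) (s.v i) - XX S r (s.u i) (s.v i) =
        XX S r (s.u (i + 1)) vs - XX S r (s.u i) vs) →
      pair T m (XX S r) = XX S r (h • s.u 0) vs - XX S r (s.u 0) vs := by
    intro vs hvs
    have ind : ∀ n : ℕ, n ≤ s.r → pair T (β (s.u n)) (XX S r) - pair T (β (s.u 0)) (XX S r) =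
        XX S r (s.u n) vs - XX S r (s.u 0) vs := by
      intro n
      induction n with
      | zero => intro _; simp
      | succ n ih =>
        intro hn
        have ih' := ih (by omega)
        have hcast : ((n + 1 : ℕ) : ℤ) = (n : ℤ) + 1 := by push_cast; ring
        rw [hcast]
        rcases s.step n with ⟨e, _⟩ | ⟨e, _, _⟩
        · rw [e]; exact ih'
        · have e1 := hpE n
          have e2 := hpE (n + 1)
          rw [e] at e2
          have e3 := hvs n (by omega) e
          linarith
    have h7 := ind s.r le_rfl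
    have e2 := (s.per 0).1
    rw [zero_add] at e2
    rw [hmval, pair_sub, h7, e2]
  constructor
  · intro hdis
    have hfar : pair T m (XX S r) = XX S r (h • s.u 0) (h • s.v 0) - XX S r (s.u 0) (h • s.v 0) := by
      apply key
      intro i hi hv
      have ev : h • s.v 0 = s.v s.r := by
        have := (s.per 0).2
        rw [zero_add] at this
        exact this.symm
      have hlast := hdis _ _ (s.edge s.r) (s.left s.r) (s.right s.r)
      have hi0 := hdis _ _ (s.edge i) (s.left i) (s.right i)
      have hi1 := hdis _ _ (s.edge (i + 1)) (s.left (i + 1)) (s.right (i + 1))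
      have m1 : pos h (s.u i) ≤ pos h (s.u s.r) := by
        have := hmono' i (s.r - i)
        rwa [show (i : ℤ) + ((s.r - i : ℕ) : ℤ) = s.r by
          rw [Nat.cast_sub hi.le]; ring] at this
      have m2 : pos h (s.u (i + 1)) ≤ pos h (s.u s.r) := by
        have := hmono' (i + 1) (s.r - (i + 1))
        rwa [show (i : ℤ) + 1 + ((s.r - (i + 1) : ℕ) : ℤ) = s.r by
          rw [Nat.cast_sub hi]; push_cast; ring] at this
      rw [hv] at hi1
      have h8 := h1 G S r h M hS htr hb hok (s.u i) (s.u (i + 1)) (s.v i) (s.v s.r)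
        (s.left i) (s.left (i + 1)) (s.right i) (s.right s.r)
        (Or.inl ⟨by linarith, by linarith, by linarith, by linarith⟩)
      rw [ev]
      linarith
    have e0 := hdis _ _ (s.edge 0) (s.left 0) (s.right 0)
    have h9 := (h2 G S r h M hS hr hh htr hb hok (s.u 0) (s.v 0) (s.left 0) (s.right 0)).1
      (by linarith)
    rw [hfar, hinv h hh]
    constructor
    · linarith [h9.1]
    · intro hf
      linarith [h9.2 hf]
  · intro hdis
    have hfar : pair T m (XX S r) = XX S r (h • s.u 0) (s.v 0) - XX S r (s.u 0) (s.v 0) := by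
      apply key
      intro i hi hv
      have h0 := hdis _ _ (s.edge 0) (s.left 0) (s.right 0)
      have hi0 := hdis _ _ (s.edge i) (s.left i) (s.right i)
      have hi1 := hdis _ _ (s.edge (i + 1)) (s.left (i + 1)) (s.right (i + 1))
      have m1 : pos h (s.u 0) ≤ pos h (s.u i) := by
        have := hmono' 0 i
        rwa [zero_add] at this
      have m2 : pos h (s.u i) ≤ pos h (s.u (i + 1)) := hmono i
      rw [hv] at hi1
      have h8 := h1 G S r h M hS htr hb hok (s.u i) (s.u (i + 1)) (s.v i) (s.v 0)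
        (s.left i) (s.left (i + 1)) (s.right i) (s.right 0)
        (Or.inr ⟨by linarith, by linarith, by linarith, by linarith⟩)
      linarith
    have e0 := hdis _ _ (s.edge 0) (s.left 0) (s.right 0)
    have hl : side h (h • s.u 0) < 0 := by rw [side_smul_self]; exact s.left 0
    have h9 := (h2 G S r h M hS hr hh htr hb hok (h • s.u 0) (s.v 0) hl (s.right 0)).2
      (by rw [hpos1]; linarith)
    rw [hfar, ← hinv h hh (s.u 0) (s.v 0)]
    exact h9

end Pool.Agent.Lib.MP_eee7a8_ag.TB.PB.H19
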