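import Pool.Agent.Lib.MP_eee7a8_ag.TB.IfaceB

/-!
# TAGBR Part B, modules PSI, DARC, DECH, DTRI, MTD (helper19)
-/

set_option autoImplicit false

open Matrix

namespace Pool.Agent.Lib.MP_eee7a8_ag.TB.PB.H19

theorem act_ofCusp {G : Subgroup SLZ} {κ : Type} (Λ : LFam G κ) (g : G) (v : Cusp) :
    (Pt.ofCusp Λ v).act g = Pt.ofCusp Λ ((g : SLZ) • v) := by
  have h : ((Pt.ofCusp Λ v).act g).mem = (Pt.ofCusp Λ ((g : SLZ) • v)).mem := by
    funext k
    change (0 < side ((g : SLZ)⁻¹ * k * g) v) = (0 < side k ((g : SLZ) • v))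
    have h1 := side_conj (g : SLZ) ((g : SLZ)⁻¹ * k * g) v
    rw [show (g : SLZ) * ((g : SLZ)⁻¹ * k * g) * (g : SLZ)⁻¹ = k by group] at h1
    rw [h1]
  revert h
  generalize (Pt.ofCusp Λ v).act g = x
  generalize Pt.ofCusp Λ ((g : SLZ) • v) = y
  intro h
  cases x
  cases y
  cases h
  rfl

/-- module PSI -/
theorem psi (h1 : COC_S) (h2 : EQV_S) (h3 : SEPFIN_S) (h4 : CPRG_S) (h5 : DINV_S) : PSI_S := by
  intro G κ _ Λ n
  have key : ∀ n : κ → ℤ, ∀ g ∈ G, ∃ g' ∈ G, ∀ v, Λ.D n (g • v) = g' • Λ.D n v := by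
    intro n g hg
    refine ⟨cpr n (Pt.ofCusp Λ infty) (Pt.ofCusp Λ (g • infty)) * g,
      G.mul_mem (h4 G κ Λ n _ _) hg, fun v => ?_⟩
    have e1 := h1 G κ Λ n (Pt.ofCusp Λ infty) (Pt.ofCusp Λ (g • infty)) (Pt.ofCusp Λ (g • v))
      (h3 G κ inferInstance Λ _ _) (h3 G κ inferInstance Λ _ _) (h3 G κ inferInstance Λ _ _)
    have e2 := h2 G κ Λ n (Pt.ofCusp Λ infty) (Pt.ofCusp Λ v) ⟨g, hg⟩
      (h3 G κ inferInstance Λ _ _)
    rw [act_ofCusp, act_ofCusp] at e2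
    change cpr n (Pt.ofCusp Λ (g • infty)) (Pt.ofCusp Λ (g • v)) =
      g * cpr n (Pt.ofCusp Λ infty) (Pt.ofCusp Λ v) * g⁻¹ at e2
    unfold LFam.D
    rw [← e1, e2]
    simp only [mul_smul, inv_smul_smul]
  refine ⟨key n, fun g' hg' => ?_⟩
  obtain ⟨g, hg, h6⟩ := key (-n) g' hg'
  refine ⟨g, hg, fun v => ?_⟩
  have e1 := h6 (Λ.D n v)
  rw [h5 G κ inferInstance Λ n v] at e1
  have e2 := h5 G κ inferInstance Λ (-n) (g' • Λ.D n v)
  rw [neg_neg] at e2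
  rw [← e1, e2]

/-- module DARC -/
theorem darc (h1 : COC_S) (h2 : SEPFIN_S) (h3 : CPRG_S) : DARC_S := by
  intro G κ _ Λ n x y hxy
  have hS : (Pt.ofCusp Λ x).Sep (Pt.ofCusp Λ y) = ∅ := by
    ext k
    simp only [Set.mem_empty_iff_false, iff_false]
    rintro ⟨hk, hx, hy⟩
    change ¬ 0 < side k x at hx
    change 0 < side k y at hy
    have h4 := hxy k hk
    have h5 := LFam.side_ne hk x
    have h6 : side k x < 0 := lt_of_le_of_ne (not_lt.1 hx) h5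
    nlinarith
  have hc : cpr n (Pt.ofCusp Λ x) (Pt.ofCusp Λ y) = 1 := by
    unfold cpr
    split_ifs with H
    · have h4 := H.choose_spec
      have h5 : H.choose = [] := by
        apply List.eq_nil_iff_forall_not_mem.2
        intro k hk
        rw [h4.1, hS] at hk
        exact hk
      rw [h5, List.map_nil, List.prod_nil]
    · rfl
  have e1 := h1 G κ Λ n (Pt.ofCusp Λ infty) (Pt.ofCusp Λ x) (Pt.ofCusp Λ y)
    (h2 G κ inferInstance Λ _ _) (h2 G κ inferInstance Λ _ _) (h2 G κ inferInstance Λ _ _)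
  rw [hc, mul_one] at e1
  refine ⟨cpr n (Pt.ofCusp Λ infty) (Pt.ofCusp Λ x), h3 G κ Λ n _ _, rfl, ?_⟩
  rw [e1]
  rfl

section

variable {G : Subgroup SLZ} {κ : Type} [Finite κ]

theorem D_inv (h5 : DINV_S) (Λ : LFam G κ) (n : κ → ℤ) (v : Cusp) :
    Λ.D n (Λ.D (-n) v) = v := by
  have := h5 G κ inferInstance Λ (-n) v
  rwa [neg_neg] at this

theorem D_injective (h5 : DINV_S) (Λ : LFam G κ) (n : κ → ℤ) : Function.Injective (Λ.D n) := by
  intro a b h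
  rw [← h5 G κ inferInstance Λ n a, ← h5 G κ inferInstance Λ n b, h]

/-- the twist preserves the relation of being the same arc -/
theorem same_D (h5 : DINV_S) (h6 : PSI_S) (Λ : LFam G κ) (n : κ → ℤ) (a b a' b' : Cusp) :
    SameArc G (Λ.D n a) (Λ.D n b) (Λ.D n a') (Λ.D n b') ↔ SameArc G a b a' b' := by
  have hinj := D_injective h5 Λ n
  constructor
  · rintro ⟨g, hg, h⟩
    obtain ⟨g0, hg0, h0⟩ := (h6 G κ inferInstance Λ n).2 g hg
    refine ⟨g0, hg0, ?_⟩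
    rw [← h0, ← h0] at h
    rcases h with ⟨e1, e2⟩ | ⟨e1, e2⟩
    · exact Or.inl ⟨hinj e1, hinj e2⟩
    · exact Or.inr ⟨hinj e1, hinj e2⟩
  · rintro ⟨g, hg, h⟩
    obtain ⟨g0, hg0, h0⟩ := (h6 G κ inferInstance Λ n).1 g hg
    refine ⟨g0, hg0, ?_⟩
    rw [← h0, ← h0]
    rcases h with ⟨e1, e2⟩ | ⟨e1, e2⟩
    · left; rw [e1, e2]; exact ⟨rfl, rfl⟩
    · right; rw [e1, e2]; exact ⟨rfl, rfl⟩

theorem E_D (h5 : DINV_S) (h6 : PSI_S) (Λ : LFam G κ) (n : κ → ℤ) {ι : Type} (T : Fam ι)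
    (a b : Cusp) : (mapF T (Λ.D n)).E G (Λ.D n a) (Λ.D n b) ↔ T.E G a b := by
  unfold Fam.E
  exact exists_congr fun i => same_D h5 h6 Λ n _ _ _ _

theorem same_smul {g : SLZ} (hg : g ∈ G) (a b c d : Cusp) :
    SameArc G a b (g • c) (g • d) ↔ SameArc G a b c d := by
  constructor
  · rintro ⟨k, hk, h⟩
    refine ⟨g⁻¹ * k, G.mul_mem (G.inv_mem hg) hk, ?_⟩
    rw [mul_smul, mul_smul]
    rcases h with ⟨e1, e2⟩ | ⟨e1, e2⟩
    · left; rw [e1, e2, inv_smul_smul, inv_smul_smul]; exact ⟨rfl, rfl⟩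
    · right; rw [e1, e2, inv_smul_smul, inv_smul_smul]; exact ⟨rfl, rfl⟩
  · rintro ⟨k, hk, h⟩
    refine ⟨g * k, G.mul_mem hg hk, ?_⟩
    rw [mul_smul, mul_smul]
    rcases h with ⟨e1, e2⟩ | ⟨e1, e2⟩
    · left; rw [e1, e2]; exact ⟨rfl, rfl⟩
    · right; rw [e1, e2]; exact ⟨rfl, rfl⟩

theorem same_smul_left {g : SLZ} (hg : g ∈ G) (a b c d : Cusp) :
    SameArc G (g • a) (g • b) c d ↔ SameArc G a b c d := by
  constructor
  · rintro ⟨k, hk, h⟩
    refine ⟨k * g, G.mul_mem hk hg, ?_⟩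
    rw [mul_smul, mul_smul]
    exact h
  · rintro ⟨k, hk, h⟩
    refine ⟨k * g⁻¹, G.mul_mem hk (G.inv_mem hg), ?_⟩
    rw [mul_smul, mul_smul, inv_smul_smul, inv_smul_smul]
    exact h

end

/-- module DECH -/
theorem dech (h1 : DARC_S) (h2 : PSI_S) (h5 : DINV_S) : DECH_S := by
  intro G κ _ Λ n e he
  have hGe : ∀ x y, Ge G e (Λ.D n x) (Λ.D n y) ↔ Ge G e x y := by
    intro x y
    unfold Ge
    refine exists_congr fun p => and_congr_right fun hp => ?_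
    subst hp
    obtain ⟨g, hg, e1, e2⟩ := h1 G κ inferInstance Λ n p.1 p.2 (by
      rintro k ⟨j, g, hg, rfl | rfl⟩
      · have e1 := side_conj g (Λ.h j) (g⁻¹ • p.1)
        have e2 := side_conj g (Λ.h j) (g⁻¹ • p.2)
        rw [smul_inv_smul] at e1 e2
        rw [e1, e2]
        exact (he j _ _ ⟨p, rfl, g⁻¹, G.inv_mem hg, Or.inl ⟨rfl, rfl⟩⟩).le
      · have e1 := side_conj g (Λ.h j)⁻¹ (g⁻¹ • p.1)
        have e2 := side_conj g (Λ.h j)⁻¹ (g⁻¹ • p.2)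
        rw [smul_inv_smul] at e1 e2
        rw [e1, e2, side_inv, side_inv, neg_mul_neg]
        exact (he j _ _ ⟨p, rfl, g⁻¹, G.inv_mem hg, Or.inl ⟨rfl, rfl⟩⟩).le)
    rw [← same_D h5 h2 Λ n p.1 p.2 x y, e1, e2, same_smul_left hg]
  refine ⟨hGe, fun x y => ⟨fun h => ?_, fun h => ?_⟩⟩
  · have key : ∀ a b, Sim G e a b → Sim G e (Λ.D (-n) a) (Λ.D (-n) b) := by
      intro a b hab
      induction hab with
      | rel a b h =>
        apply Relation.EqvGen.rel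
        rw [← hGe, D_inv h5, D_inv h5]
        exact h
      | refl a => exact Relation.EqvGen.refl _
      | symm a b _ ih => exact Relation.EqvGen.symm _ _ ih
      | trans a b c _ _ ih1 ih2 => exact Relation.EqvGen.trans _ _ _ ih1 ih2
    have h3 := key _ _ h
    rwa [h5 G κ inferInstance Λ n x, h5 G κ inferInstance Λ n y] at h3
  · induction h with
    | rel a b h =>
      apply Relation.EqvGen.rel
      rw [hGe]
      exact h
    | refl a => exact Relation.EqvGen.refl _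
    | symm a b _ ih => exact Relation.EqvGen.symm _ _ ih
    | trans a b c _ _ ih1 ih2 => exact Relation.EqvGen.trans _ _ _ ih1 ih2

/-- module DTRI -/
theorem dtri (h1 : DCROSS_S) (h5 : DINV_S) (h6 : PSI_S) : DTRI_S := by
  intro G κ ι _ Λ n T hT
  have hinj := D_injective h5 Λ n
  have hsurj : ∀ v, ∃ w, Λ.D n w = v := fun v => ⟨_, D_inv h5 Λ n v⟩
  refine ⟨?_, same_D h5 h6 Λ n⟩
  have hE := E_D h5 h6 Λ n T
  refine
    { ne := fun i h => hT.ne i (hinj h)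
      nocross := ?_
      inj := fun i j h => hT.inj i j ((same_D h5 h6 Λ n _ _ _ _).1 h)
      star := ?_
      tri := ?_ }
  · intro a b c d hab hcd
    obtain ⟨a, rfl⟩ := hsurj a
    obtain ⟨b, rfl⟩ := hsurj b
    obtain ⟨c, rfl⟩ := hsurj c
    obtain ⟨d, rfl⟩ := hsurj d
    rw [hE] at hab hcd
    rw [h1 G κ inferInstance Λ n]
    exact hT.nocross a b c d hab hcd
  · intro a b hab
    obtain ⟨a, rfl⟩ := hsurj a
    obtain ⟨b, rfl⟩ := hsurj b
    rcases hT.star a b (fun h => hab (by rw [h])) with h | ⟨c, d, h2, h3, h4, h7⟩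
    · left; rwa [hE]
    · right
      exact ⟨Λ.D n c, Λ.D n d, (hE _ _).2 h2, (hE _ _).2 h3, (hE _ _).2 h4,
        (h1 G κ inferInstance Λ n _ _ _ _).2 h7⟩
  · intro c d hcd
    obtain ⟨c, rfl⟩ := hsurj c
    obtain ⟨d, rfl⟩ := hsurj d
    rw [hE] at hcd
    obtain ⟨a, f, h2, h3, h4, h7, h8⟩ := hT.tri c d hcd
    exact ⟨Λ.D n a, Λ.D n f, (hE _ _).2 h2, (hE _ _).2 h3, (hE _ _).2 h4, (hE _ _).2 h7,
      (h1 G κ inferInstance Λ n _ _ _ _).2 h8⟩

/-- module MTD -/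
theorem mtd (h1 : DTRI_S) (h2 : DAX_S) (h5 : DINV_S) (h4 : DEL_S) : MTD_S := by
  intro G κ ι _ _ Λ n j T m hT hm
  obtain ⟨α, β, hab, hm'⟩ := hm
  obtain ⟨g, hg, hcomm, hN, hP⟩ := h2 G κ inferInstance Λ n j
  obtain ⟨hT', hsame⟩ := h1 G κ ι inferInstance Λ n T hT
  have hd := (h4 G ι inferInstance T hT).2.2.1
  have hd' := (h4 G ι inferInstance (mapF T (Λ.D n)) hT').2.2.1
  set Di : Cusp → Cusp := fun v => Λ.D (-n) (g⁻¹ • v) with hDi
  have hDD : ∀ v, g • Λ.D n (Di v) = v := by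
    intro v
    rw [hDi]
    change g • Λ.D n (Λ.D (-n) (g⁻¹ • v)) = v
    rw [D_inv h5, smul_inv_smul]
  have hDD' : ∀ v, Di (g • Λ.D n v) = v := by
    intro v
    rw [hDi]
    change Λ.D (-n) (g⁻¹ • g • Λ.D n v) = v
    rw [inv_smul_smul, h5 G κ inferInstance Λ n v]
  have hDh : ∀ v, Di (Λ.h j • v) = Λ.h j • Di v := by
    intro v
    rw [← hDD' (Λ.h j • Di v), hcomm, hDD]
  have hht : 2 < |(Λ.h j).1.trace| := (Λ.tr j).trans_le (le_abs_self _)
  have hsN : ∀ v, side (Λ.h j) v < 0 → side (Λ.h j) (Di v) < 0 := by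
    intro v hv
    rcases lt_or_gt_of_ne (side_ne_zero hht (Di v)) with h9 | h9
    · exact h9
    · have := (hP _ h9).1
      rw [hDD] at this
      omega
  have hsP : ∀ v, 0 < side (Λ.h j) v → 0 < side (Λ.h j) (Di v) := by
    intro v hv
    rcases lt_or_gt_of_ne (side_ne_zero hht (Di v)) with h9 | h9
    · have := (hN _ h9).1
      rw [hDD] at this
      omega
    · exact h9
  -- edges and exponents
  have hE : ∀ a b, (mapF T (Λ.D n)).E G a b →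
      T.E G (Di a) (Di b) ∧ (mapF T (Λ.D n)).del G a b = T.del G (Di a) (Di b) := by
    rintro a b ⟨i, hi⟩
    have h6 : SameArc G (T.s i) (T.t i) (Di a) (Di b) := by
      rw [← hsame, ← same_smul hg, hDD, hDD]
      exact hi
    exact ⟨⟨i, h6⟩, by rw [hd i _ _ h6, hd' i _ _ hi]⟩
  refine ⟨fun v => α (Di v), fun v => β (Di v), ?_, ?_⟩
  · intro a b hE' ha hb
    obtain ⟨h6, h7⟩ := hE a b hE'
    rw [h7]
    exact hab _ _ h6 (hsP _ ha) (hsN _ hb)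
  · intro a b hE' ha hb
    obtain ⟨h6, _⟩ := hE a b hE'
    change β (Di (Λ.h j • b)) - β (Di b) = m ∧ α (Di (Λ.h j • a)) - α (Di a) = -m
    rw [hDh, hDh]
    exact hm' _ _ h6 (hsP _ ha) (hsN _ hb)

end Pool.Agent.Lib.MP_eee7a8_ag.TB.PB.H19
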